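import Pool.Agent.H324.EX.Main
import Pool.Agent.H324.EX.Conv

/-!
# `MP_5d202e_al`: the group has order at most twelve iff products of two involutions do not have
order four

Let `G` be generated by `x, y, z` with `x³ = y² = z² = (xy)³ = (yz)³ = 1`.

1. Suppose only that `G` has no elements of order `9` (`G` need not have finite exponent, it need not
   be periodic). Then `G` is finite of order at most `12` if and only if the product of any two
   involutions of `G` has order dividing `6`.
2. If the exponent of `G` divides `12`, this means that no product of two involutions of `G` has order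
   `4`, i.e. `G` has no dihedral subgroup of order `8`.

Proof of the harder direction in 1. By `Pool.Agent.H324.DT` the involutions generate a locally finite subgroup `T`,
which contains a `3`-subgroup `R`, normal in `G`, with `T / R` an elementary abelian `2`-group. As
`G = T ⟨x⟩`, `G` is finite. For `w ∈ R` and `X` in `{x, x a, x b, x a b}`, `a = y`, `b = x⁻¹ y x`, one has
`(X w)³ = 1`, as `X³ = 1` and `G` has no elements of order `9`. For `w = r = y z ∈ R`, which is inverted
by `y`, the product of the four identities `w^{X²} w^X w = 1` gives `r⁴ = 1` modulo the derived subgroup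
`R'` of `R`, so `r ∈ R'`. Hence `G / R'` is a quotient of the alternating group of degree four, so
`R ≤ R'`, `R = 1` and `y = z`.
-/

set_option autoImplicit false

universe u

namespace Pool.Agent.Results.MP_5d202e_al.NoDihedralOfOrderEight

open Pool.Agent.H324.EX

/-- Let `G` be generated by `x, y, z` with `x³ = y² = z² = (xy)³ = (yz)³ = 1`.
(1) If `G` has no elements of order `9`, then `G` is finite of order at most `12` if and only if
`(a b)⁶ = 1` for all `a, b` with `a² = b² = 1`.
(2) If `g¹² = 1` for all `g`, then `G` is finite of order at most `12` if and only if no product of two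
elements with square `1` has order `4`. -/
theorem result (G : Type u) [Group G] (x y z : G)
    (hgen : Subgroup.closure {x, y, z} = (⊤ : Subgroup G))
    (hx : x ^ 3 = 1) (hy : y ^ 2 = 1) (hz : z ^ 2 = 1) (hxy : (x * y) ^ 3 = 1)
    (hyz : (y * z) ^ 3 = 1) :
    ((∀ g : G, orderOf g ≠ 9) →
      ((Finite G ∧ Nat.card G ≤ 12) ↔ ∀ a b : G, a ^ 2 = 1 → b ^ 2 = 1 → (a * b) ^ 6 = 1)) ∧
    ((∀ g : G, g ^ 12 = 1) →
      ((Finite G ∧ Nat.card G ≤ 12) ↔
        ∀ a b : G, a ^ 2 = 1 → b ^ 2 = 1 → orderOf (a * b) ≠ 4)) := by
  refine ⟨fun h9 => ⟨?_, fun h => main hgen hx hy hz hxy hyz h9 h⟩, fun hG => ⟨?_, fun h => ?_⟩⟩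
  · rintro ⟨hfin, hcard⟩ a b ha hb
    exact conv6 hgen hx hy hz hxy hyz hfin hcard h9 ha hb
  · rintro ⟨hfin, hcard⟩ a b ha hb
    exact conv hgen hx hy hz hxy hyz hfin hcard ha hb
  · have h9 : ∀ g : G, orderOf g ≠ 9 := by
      intro g h9
      have h1 := orderOf_dvd_of_pow_eq_one (hG g)
      rw [h9] at h1
      norm_num at h1
    refine main hgen hx hy hz hxy hyz h9
      (Pool.Agent.H324.Alg.h2_twelve hG (fun a b ha hb h4 => ?_))
    have h1 : orderOf (a * b) ∣ 4 := orderOf_dvd_of_pow_eq_one h4
    have h2 : orderOf (a * b) = 1 ∨ orderOf (a * b) = 2 ∨ orderOf (a * b) = 4 := by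
      have h3 : orderOf (a * b) ≤ 4 := Nat.le_of_dvd (by norm_num) h1
      have h5 : orderOf (a * b) ≠ 0 := by
        intro h0; rw [h0] at h1; norm_num at h1
      interval_cases h6 : orderOf (a * b)
      · exact absurd rfl h5
      · exact Or.inl rfl
      · exact Or.inr (Or.inl rfl)
      · norm_num at h1
      · exact Or.inr (Or.inr rfl)
    rcases h2 with h2 | h2 | h2
    · rw [orderOf_eq_one_iff.mp h2, one_pow]
    · rw [← h2, pow_orderOf_eq_one]
    · exact absurd h2 (h a b ha hb)

end Pool.Agent.Results.MP_5d202e_al.NoDihedralOfOrderEight
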